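import Pool.Agent.H203R4.DF.Stmts

/-! Task Min of project H203DF. -/

set_option autoImplicit false

namespace Pool.Agent.H203R4.DF

universe u

theorem taskMin : TaskMin.{u} := by
  intro G _ X _ _ _ hg K hK hne hinv
  let S : Set (Set X) := {M | M ⊆ K ∧ IsCompact M ∧ M.Nonempty ∧ ∀ (g : G), ∀ x ∈ M, g • x ∈ M}
  have hz := zorn_superset_nonempty S (fun c hc hchain hcne => by
    refine ⟨⋂₀ c, ⟨?_, ?_, ?_, ?_⟩, fun s hs => Set.sInter_subset_of_mem hs⟩
    · obtain ⟨s, hs⟩ := hcne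
      exact (Set.sInter_subset_of_mem hs).trans (hc hs).1
    · obtain ⟨s, hs⟩ := hcne
      exact (hc hs).2.1.of_isClosed_subset
        (isClosed_sInter fun t ht => (hc ht).2.1.isClosed) (Set.sInter_subset_of_mem hs)
    · have : Nonempty c := hcne.to_subtype
      exact IsCompact.nonempty_sInter_of_directed_nonempty_isCompact_isClosed
        (fun x hx y hy => (hchain.total hx hy).elim
          (fun h => ⟨x, hx, subset_rfl, h⟩) (fun h => ⟨y, hy, h, subset_rfl⟩)) (fun U hU => (hc hU).2.2.1) (fun U hU => (hc hU).2.1)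
        (fun U hU => (hc hU).2.1.isClosed)
    · intro g x hx
      rw [Set.mem_sInter] at hx ⊢
      intro t ht
      exact (hc ht).2.2.2 g x (hx t ht)) K ⟨subset_rfl, hK, hne, hinv⟩
  obtain ⟨M, hMK, hM⟩ := hz
  obtain ⟨⟨-, h2, h3, h4⟩, hmin⟩ := hM
  refine ⟨M, hMK, h2, h3, h4, fun x hx => ?_⟩
  have hsub : closure (Set.range (fun g : G => g • x)) ⊆ M := by
    apply closure_minimal _ h2.isClosed
    rintro _ ⟨g, rfl⟩
    exact h4 g x hx
  refine hmin ⟨hsub.trans hMK, h2.of_isClosed_subset isClosed_closure hsub,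
    ⟨_, subset_closure ⟨1, rfl⟩⟩, ?_⟩ hsub
  intro g y hy
  refine map_mem_closure (hg g) hy ?_
  rintro _ ⟨k, rfl⟩
  exact ⟨g * k, mul_smul g k x⟩

end Pool.Agent.H203R4.DF
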