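import Pool.Agent.H369R3.UT.Defs

/-! Task J1 of project H369-UT. -/

set_option autoImplicit false

open MeasureTheory Metric

namespace Pool.Agent.H789R5

theorem taskJ1 : Pool.Agent.H369R3.UT.TaskJ1 := by
  intro n μ _ a R S m hS hm
  have hanti : Antitone (fun K : ℕ => closure (⋃ k : ℕ, ⋃ _ : K ≤ k, S k)) := by
    intro K K' h
    apply closure_mono
    refine Set.iUnion_mono fun k => ?_
    exact Set.iUnion_subset fun hk => Set.subset_iUnion_of_subset (h.trans hk) subset_rfl
  have hsub : ∀ K : ℕ, closure (⋃ k : ℕ, ⋃ _ : K ≤ k, S k) ⊆ closedBall a R := fun K =>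
    closure_minimal (Set.iUnion_subset fun k => Set.iUnion_subset fun _ => hS k)
      isClosed_closedBall
  rw [hanti.measure_iInter (fun K => isClosed_closure.measurableSet.nullMeasurableSet)
    ⟨0, ((measure_mono (hsub 0)).trans_lt measure_closedBall_lt_top).ne⟩]
  refine le_iInf fun K => (hm K).trans (measure_mono ?_)
  refine Set.Subset.trans ?_ subset_closure
  exact Set.subset_iUnion_of_subset K (Set.subset_iUnion_of_subset le_rfl subset_rfl)

end Pool.Agent.H789R5
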