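import Pool.Agent.H748R3.HUR.Stmts

/-! Task Enum of project H748-HUR. -/

set_option autoImplicit false

namespace Pool.Agent.H748R3.HUR

open Cardinal

theorem card_clopen : #{s : Set K // IsClopen s} ≤ ℵ₀ := by
  have : Countable (TopologicalSpace.Clopens K) :=
    TopologicalSpace.Clopens.countable_iff_secondCountable.2 inferInstance
  rw [Cardinal.mk_le_aleph0_iff]
  exact Function.Injective.countable
    (f := fun s : {s : Set K // IsClopen s} => (⟨s.1, s.2⟩ : TopologicalSpace.Clopens K))
    (fun s t h => Subtype.ext (congrArg (fun c : TopologicalSpace.Clopens K => (c : Set K)) h))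

theorem taskEnum : TaskEnum := by
  intro hCH
  let P : Type := K × (ℕ → ℕ → {s : Set K // IsClopen s})
  have hP : #P ≤ Cardinal.continuum := by
    have h1 : #K = Cardinal.continuum := by
      rw [show K = (ℕ × ℕ → ℤˣ) from rfl, ← Cardinal.power_def]
      simp
    have h2 : #(ℕ → ℕ → {s : Set K // IsClopen s}) ≤ Cardinal.continuum := by
      rw [← Cardinal.power_def, ← Cardinal.power_def]
      calc (#{s : Set K // IsClopen s} ^ #ℕ) ^ #ℕ ≤ (ℵ₀ ^ #ℕ) ^ #ℕ :=
            Cardinal.power_le_power_right (Cardinal.power_le_power_right card_clopen)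
        _ = Cardinal.continuum := by simp
    rw [Cardinal.mk_prod, Cardinal.lift_id, Cardinal.lift_id, h1]
    calc Cardinal.continuum * #(ℕ → ℕ → {s : Set K // IsClopen s})
          ≤ Cardinal.continuum * Cardinal.continuum := mul_le_mul' le_rfl h2
      _ = Cardinal.continuum := by simp
  let ι : Type := (Cardinal.aleph.{0} 1).ord.ToType
  have hι : #ι = Cardinal.aleph 1 := Cardinal.mk_ord_toType _
  have hPne : Nonempty P := ⟨(fun _ => 1, fun _ _ => ⟨∅, isClopen_empty⟩)⟩
  have hsurj : ∃ f : ι → P, Function.Surjective f := by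
    have h3 : #P ≤ #ι := by
      rw [hι, hCH]; exact hP
    obtain ⟨f⟩ := h3
    exact ⟨Function.invFun f, Function.invFun_surjective f.injective⟩
  obtain ⟨f, hf⟩ := hsurj
  refine ⟨ι, inferInstance, inferInstance, ?_, fun a => ((f a).1, fun n j => ((f a).2 n j).1), ?_⟩
  · intro a
    have h4 := Cardinal.mk_Iio_toType_ord_lt a
    rw [← Cardinal.le_aleph0_iff_set_countable]
    exact Cardinal.lt_aleph_one_iff.1 h4
  · rintro ⟨x, U⟩ hU
    obtain ⟨a, ha⟩ := hf (x, fun n j => ⟨U n j, hU n j⟩)
    refine ⟨a, ?_⟩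
    simp only [ha]

end Pool.Agent.H748R3.HUR
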