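import Pool.Agent.H972ST.Stmts

/-! Task TIncl of project H972-ST. -/

set_option autoImplicit false

namespace Pool.Agent.H972ST

open Classical in
theorem tIncl_v2 (m : ℕ) : ((Box m).filter fun z : T6 => prs m z ∧ par z ∧
    2 * (m : ℤ) < |z.1.1| + |z.2.2.2| + |z.2.1.2|).card = (Vset m).card := by
  refine Finset.card_bij' (fun z _ => (z.1, z.2.1.swap, z.2.2.swap))
    (fun z _ => (z.1, z.2.1.swap, z.2.2.swap)) ?_ ?_ (fun z _ => rfl) (fun z _ => rfl)
  · intro z hz
    rw [Finset.mem_filter] at hz
    unfold Vset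
    rw [Finset.mem_filter]
    unfold Box prs par at hz ⊢
    simp only [Finset.mem_product, Finset.mem_Icc, Prod.fst_swap, Prod.snd_swap] at hz ⊢
    omega
  · intro z hz
    rw [Finset.mem_filter]
    unfold Vset at hz
    rw [Finset.mem_filter] at hz
    unfold Box prs par at hz ⊢
    simp only [Finset.mem_product, Finset.mem_Icc, Prod.fst_swap, Prod.snd_swap] at hz ⊢
    omega

open Classical in
theorem tIncl_v3 (m : ℕ) : ((Box m).filter fun z : T6 => prs m z ∧ par z ∧
    2 * (m : ℤ) < |z.1.2| + |z.2.1.1| + |z.2.2.2|).card = (Vset m).card := by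
  refine Finset.card_bij' (fun z _ => (z.1.swap, z.2.1, z.2.2.swap))
    (fun z _ => (z.1.swap, z.2.1, z.2.2.swap)) ?_ ?_ (fun z _ => rfl) (fun z _ => rfl)
  · intro z hz
    rw [Finset.mem_filter] at hz
    unfold Vset
    rw [Finset.mem_filter]
    unfold Box prs par at hz ⊢
    simp only [Finset.mem_product, Finset.mem_Icc, Prod.fst_swap, Prod.snd_swap] at hz ⊢
    omega
  · intro z hz
    rw [Finset.mem_filter]
    unfold Vset at hz
    rw [Finset.mem_filter] at hz
    unfold Box prs par at hz ⊢
    simp only [Finset.mem_product, Finset.mem_Icc, Prod.fst_swap, Prod.snd_swap] at hz ⊢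
    omega

open Classical in
theorem tIncl_v4 (m : ℕ) : ((Box m).filter fun z : T6 => prs m z ∧ par z ∧
    2 * (m : ℤ) < |z.1.2| + |z.2.2.1| + |z.2.1.2|).card = (Vset m).card := by
  refine Finset.card_bij' (fun z _ => (z.1.swap, z.2.1.swap, z.2.2))
    (fun z _ => (z.1.swap, z.2.1.swap, z.2.2)) ?_ ?_ (fun z _ => rfl) (fun z _ => rfl)
  · intro z hz
    rw [Finset.mem_filter] at hz
    unfold Vset
    rw [Finset.mem_filter]
    unfold Box prs par at hz ⊢
    simp only [Finset.mem_product, Finset.mem_Icc, Prod.fst_swap, Prod.snd_swap] at hz ⊢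
    omega
  · intro z hz
    rw [Finset.mem_filter]
    unfold Vset at hz
    rw [Finset.mem_filter] at hz
    unfold Box prs par at hz ⊢
    simp only [Finset.mem_product, Finset.mem_Icc, Prod.fst_swap, Prod.snd_swap] at hz ⊢
    omega

open Classical in
theorem tIncl : TIncl := by
  intro m
  have h2 := tIncl_v2 m
  have h3 := tIncl_v3 m
  have h4 := tIncl_v4 m
  have h1 : (Vset m).card = ((Box m).filter fun z : T6 => prs m z ∧ par z ∧
      2 * (m : ℤ) < |z.1.1| + |z.2.1.1| + |z.2.2.1|).card := rfl
  have hG : (Gset m).card = ((Box m).filter fun z : T6 => prs m z ∧ par z ∧ tri m z).card := rfl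
  have hW : (Wset m).card = ((Box m).filter fun z : T6 => prs m z ∧ par z).card := rfl
  have key : (Wset m).card = (Gset m).card + (Vset m).card +
      ((Box m).filter fun z : T6 => prs m z ∧ par z ∧
        2 * (m : ℤ) < |z.1.1| + |z.2.2.2| + |z.2.1.2|).card +
      ((Box m).filter fun z : T6 => prs m z ∧ par z ∧
        2 * (m : ℤ) < |z.1.2| + |z.2.1.1| + |z.2.2.2|).card +
      ((Box m).filter fun z : T6 => prs m z ∧ par z ∧
        2 * (m : ℤ) < |z.1.2| + |z.2.2.1| + |z.2.1.2|).card := by
    rw [h1, hG, hW]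
    simp only [Finset.card_filter]
    rw [← Finset.sum_add_distrib, ← Finset.sum_add_distrib, ← Finset.sum_add_distrib,
      ← Finset.sum_add_distrib]
    refine Finset.sum_congr rfl fun z _ => ?_
    by_cases hp : prs m z
    · by_cases hq : par z
      · simp only [hp, hq, true_and, and_self, if_true]
        unfold prs at hp
        unfold tri
        have b1 := abs_nonneg z.1.1
        have b2 := abs_nonneg z.1.2
        have b3 := abs_nonneg z.2.1.1
        have b4 := abs_nonneg z.2.1.2
        have b5 := abs_nonneg z.2.2.1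
        have b6 := abs_nonneg z.2.2.2
        by_cases a1 : 2 * (m : ℤ) < |z.1.1| + |z.2.1.1| + |z.2.2.1|
        · rw [if_neg (by omega), if_pos a1, if_neg (by omega), if_neg (by omega),
            if_neg (by omega)]
        by_cases a2 : 2 * (m : ℤ) < |z.1.1| + |z.2.2.2| + |z.2.1.2|
        · rw [if_neg (by omega), if_neg a1, if_pos a2, if_neg (by omega), if_neg (by omega)]
        by_cases a3 : 2 * (m : ℤ) < |z.1.2| + |z.2.1.1| + |z.2.2.2|
        · rw [if_neg (by omega), if_neg a1, if_neg a2, if_pos a3, if_neg (by omega)]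
        by_cases a4 : 2 * (m : ℤ) < |z.1.2| + |z.2.2.1| + |z.2.1.2|
        · rw [if_neg (by omega), if_neg a1, if_neg a2, if_neg a3, if_pos a4]
        rw [if_pos (by omega), if_neg a1, if_neg a2, if_neg a3, if_neg a4]
      · simp [hq]
    · simp [hp]
  rw [key, h2, h3, h4]
  ring

end Pool.Agent.H972ST
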