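import Pool.Agent.H972ST.Stmts

/-! Task TMem of project H972-ST. -/

set_option autoImplicit false
open Pointwise

namespace Pool.Agent.H972ST

theorem inR_cast (m : ℕ) (x : Fin 8 → ℤ) :
    InR (m : ℝ) (fun k => (x k : ℝ)) ↔ InZ (m : ℤ) x := by
  unfold InR InZ r1 r2 r3 r4 y1 y2 y3 y4
  beta_reduce
  norm_cast

theorem inR_smul {m : ℝ} (hm : 0 < m) (x : Fin 8 → ℝ) : InR 1 (m⁻¹ • x) ↔ InR m x := by
  have e : ∀ a : ℝ, |m⁻¹ * a| = m⁻¹ * |a| := fun a => by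
    rw [abs_mul, abs_of_pos (inv_pos.2 hm)]
  have f1 : r1 (m⁻¹ • x) = m⁻¹ * r1 x := by
    simp only [r1, Pi.smul_apply, smul_eq_mul]; ring
  have f2 : r2 (m⁻¹ • x) = m⁻¹ * r2 x := by
    simp only [r2, Pi.smul_apply, smul_eq_mul]; ring
  have f3 : r3 (m⁻¹ • x) = m⁻¹ * r3 x := by
    simp only [r3, Pi.smul_apply, smul_eq_mul]; ring
  have f4 : r4 (m⁻¹ • x) = m⁻¹ * r4 x := by
    simp only [r4, Pi.smul_apply, smul_eq_mul]; ring
  have g : ∀ s : ℝ, m⁻¹ * s ≤ 1 ↔ s ≤ m := fun s => by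
    rw [inv_mul_le_iff₀ hm, mul_one]
  have g2 : ∀ s : ℝ, m⁻¹ * s ≤ 2 * 1 ↔ s ≤ 2 * m := fun s => by
    rw [inv_mul_le_iff₀ hm]
    constructor <;> intro h <;> linarith
  unfold InR
  rw [f1, f2, f3, f4]
  simp only [Pi.smul_apply, smul_eq_mul, e]
  rw [← g (|x 0| + |x 1| + |x 2| + |x 3|), ← g (|r1 x| + |r4 x| + |x 2| + |x 3|),
    ← g (|r2 x| + |r3 x| + |x 2| + |x 3|),
    ← g2 (|x 0| + |r1 x| + |r2 x| + 2 * (|x 2| + |x 3|)),
    ← g2 (|x 0| + |r3 x| + |r4 x| + 2 * (|x 2| + |x 3|)),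
    ← g2 (|x 1| + |r1 x| + |r3 x| + 2 * (|x 2| + |x 3|)),
    ← g2 (|x 1| + |r2 x| + |r4 x| + 2 * (|x 2| + |x 3|))]
  ring_nf

theorem tMem : TMem := by
  intro hP
  constructor
  · intro m x
    rw [hP]
    rcases Nat.eq_zero_or_pos m with rfl | hm
    · have h0 : ({x : Fin 8 → ℝ | InR 1 x}).Nonempty := by
        refine ⟨0, ?_⟩
        simp [InR, r1, r2, r3, r4]
      rw [Nat.cast_zero, Set.zero_smul_set h0, Set.mem_zero]
      rw [← inR_cast]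
      constructor
      · intro h
        rw [h]
        simp [InR, r1, r2, r3, r4]
      · intro h
        unfold InR r1 r2 r3 r4 at h
        obtain ⟨h1, h2, h3, -⟩ := h
        have b0 := abs_nonneg (x 0 : ℝ)
        have b1 := abs_nonneg (x 1 : ℝ)
        have b2 := abs_nonneg (x 2 : ℝ)
        have b3 := abs_nonneg (x 3 : ℝ)
        have b4 := abs_nonneg ((x 4 : ℝ) + x 0 + x 1)
        have b5 := abs_nonneg ((x 4 : ℝ) + 2 * x 7)
        have b6 := abs_nonneg ((x 4 : ℝ) + 2 * x 5 + x 1)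
        have b7 := abs_nonneg ((x 4 : ℝ) + 2 * x 6 + x 0)
        simp only [Nat.cast_zero] at h1 h2 h3
        have c0 : (x 0 : ℝ) = 0 := abs_eq_zero.1 (by linarith)
        have c1 : (x 1 : ℝ) = 0 := abs_eq_zero.1 (by linarith)
        have c2 : (x 2 : ℝ) = 0 := abs_eq_zero.1 (by linarith)
        have c3 : (x 3 : ℝ) = 0 := abs_eq_zero.1 (by linarith)
        have c4 : (x 4 : ℝ) + x 0 + x 1 = 0 := abs_eq_zero.1 (by linarith)
        have c5 : (x 4 : ℝ) + 2 * x 7 = 0 := abs_eq_zero.1 (by linarith)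
        have c6 : (x 4 : ℝ) + 2 * x 5 + x 1 = 0 := abs_eq_zero.1 (by linarith)
        have c7 : (x 4 : ℝ) + 2 * x 6 + x 0 = 0 := abs_eq_zero.1 (by linarith)
        have d4 : (x 4 : ℝ) = 0 := by linarith
        have d5 : (x 5 : ℝ) = 0 := by linarith
        have d6 : (x 6 : ℝ) = 0 := by linarith
        have d7 : (x 7 : ℝ) = 0 := by linarith
        funext k
        fin_cases k
        exacts [c0, c1, c2, c3, d4, d5, d6, d7]
    · have hm' : (0 : ℝ) < m := Nat.cast_pos.2 hm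
      rw [Set.mem_smul_set_iff_inv_smul_mem₀ hm'.ne']
      rw [Set.mem_setOf_eq, inR_smul hm', inR_cast]
  · rw [hP]
    refine ⟨0, mem_interior.2 ⟨{x : Fin 8 → ℝ |
      |x 0| + |x 1| + |x 2| + |x 3| < 1 ∧
      |r1 x| + |r4 x| + |x 2| + |x 3| < 1 ∧
      |r2 x| + |r3 x| + |x 2| + |x 3| < 1 ∧
      |x 0| + |r1 x| + |r2 x| + 2 * (|x 2| + |x 3|) < 2 * 1 ∧
      |x 0| + |r3 x| + |r4 x| + 2 * (|x 2| + |x 3|) < 2 * 1 ∧
      |x 1| + |r1 x| + |r3 x| + 2 * (|x 2| + |x 3|) < 2 * 1 ∧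
      |x 1| + |r2 x| + |r4 x| + 2 * (|x 2| + |x 3|) < 2 * 1}, ?_, ?_, ?_⟩⟩
    · rintro x ⟨h1, h2, h3, h4, h5, h6, h7⟩
      exact ⟨h1.le, h2.le, h3.le, h4.le, h5.le, h6.le, h7.le⟩
    · unfold r1 r2 r3 r4
      refine IsOpen.and ?_ (IsOpen.and ?_ (IsOpen.and ?_ (IsOpen.and ?_ (IsOpen.and ?_
        (IsOpen.and ?_ ?_))))) <;>
      exact isOpen_lt (by fun_prop) continuous_const
    · simp [r1, r2, r3, r4]

end Pool.Agent.H972ST
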